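import Pool.Agent.H951.KS.Cond
import Pool.Agent.H951.KS.ShpW2
import Pool.Agent.H951.FX.CondQ

/-!
# MP_b1773a_an: exceptional slices of Kakeya sets

Let `n ≥ 3` and let `c ≥ 1` be such that `c ≥ 2(n-1)/n`, or `n ≥ 10` and `c^3-4c+2 ≥ 0`, or
`n ≥ 15` and `(n-1)(c^3-4c+2) + c(3c-1-c^2) ≥ 0`.

Let `K ⊆ ℝ^n` be closed.  For a segment `S ⊆ K`, a vector `ν` which is not orthogonal to `S` and a
real number `s` we consider the points `x` of `S` for which the slice of `K` by the hyperplane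
through `x` normal to `ν` has Hausdorff dimension less than `s`.

* For almost every `e ∈ ℝ^n`, all segments `S ⊆ K` parallel to `e`, all `ν` and all `s`, these
  points form a set of Hausdorff dimension at most `cs/(n-1)` and at most `s - (n-2)/2`, and of
  dimension zero if `s ≤ (n-1)/2`.
* For `β ≥ 1`, all unit vectors `e` outside a set of dimension at most `β`, all segments `S ⊆ K`
  parallel to `e`, all `ν` and all `s`, they form a set of dimension at most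
  `1 - (β - cs)/(n-1)` and at most `s - (β-1)/2`, and of dimension zero if `s ≤ β/2`.
* Sharpness.  Let `W` be a linear subspace of dimension `m ≥ 2` and `ν ∈ W` a unit vector.  If
  `(m-1)/2 < s ≤ m-1` and `ρ < 2s/(m-1) - 1`, then some compact set `K` contains a unit segment in
  every direction `e` of `W` with, if `e` is not orthogonal to `ν`, exceptional points (those
  above) forming a set of dimension at least `ρ`.  For `W = ℝ^n`: the threshold `(n-1)/2` is exact,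
  for Kakeya sets and for all directions.
-/

set_option autoImplicit false

open MeasureTheory

namespace Pool.Agent.Results.MP_b1773a_an.ExceptionalSlices

/-- the segment from `a` to `a + r e` -/
def seg {n : ℕ} (a e : EuclideanSpace ℝ (Fin n)) (r : ℝ) : Set (EuclideanSpace ℝ (Fin n)) :=
  segment ℝ a (a + r • e)

/-- the points `x` of `S` for which the slice of `K` by the hyperplane through `x` normal to `ν` has
Hausdorff dimension less than `s` -/
def exceptional {n : ℕ} (K S : Set (EuclideanSpace ℝ (Fin n))) (ν : EuclideanSpace ℝ (Fin n))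
    (s : ℝ) : Set (EuclideanSpace ℝ (Fin n)) :=
  {x ∈ S | dimH (K ∩ {y | inner ℝ y ν = inner ℝ x ν}) < ENNReal.ofReal s}

theorem result (n : ℕ) (hn : 3 ≤ n) (c : ℝ) (hc1 : 1 ≤ c)
    (hc : 2 * ((n : ℝ) - 1) / n ≤ c ∨ (10 ≤ n ∧ 0 ≤ c ^ 3 - 4 * c + 2) ∨
      (15 ≤ n ∧ 0 ≤ ((n : ℝ) - 1) * (c ^ 3 - 4 * c + 2) + c * (3 * c - 1 - c ^ 2))) :
    (∀ K : Set (EuclideanSpace ℝ (Fin n)), IsClosed K →
      ∀ᵐ e : EuclideanSpace ℝ (Fin n), ∀ (a : EuclideanSpace ℝ (Fin n)) (r : ℝ),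
      seg a e r ⊆ K → ∀ ν : EuclideanSpace ℝ (Fin n), inner ℝ e ν ≠ 0 → ∀ s : ℝ,
        dimH (exceptional K (seg a e r) ν s) ≤
            ENNReal.ofReal (min (c * s / ((n : ℝ) - 1)) (s - ((n : ℝ) - 2) / 2)) ∧
        (2 * s ≤ (n : ℝ) - 1 → dimH (exceptional K (seg a e r) ν s) = 0)) ∧
    (∀ K : Set (EuclideanSpace ℝ (Fin n)), IsClosed K → ∀ β : ℝ, 1 ≤ β →
      dimH {e : EuclideanSpace ℝ (Fin n) | ‖e‖ = 1 ∧
        ¬ ∀ (a : EuclideanSpace ℝ (Fin n)) (r : ℝ), seg a e r ⊆ K →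
          ∀ ν : EuclideanSpace ℝ (Fin n), inner ℝ e ν ≠ 0 → ∀ s : ℝ,
          dimH (exceptional K (seg a e r) ν s) ≤
              ENNReal.ofReal (min (1 - (β - c * s) / ((n : ℝ) - 1)) (s - (β - 1) / 2)) ∧
          (2 * s ≤ β → dimH (exceptional K (seg a e r) ν s) = 0)} ≤
        ENNReal.ofReal β) ∧
    (∀ (m : ℕ) (W : Submodule ℝ (EuclideanSpace ℝ (Fin n))), 2 ≤ m → Module.finrank ℝ W = m →
      ∀ ν ∈ W, ‖ν‖ = 1 → ∀ s ρ : ℝ, (m : ℝ) - 1 < 2 * s → s ≤ (m : ℝ) - 1 →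
      ρ < 2 * s / ((m : ℝ) - 1) - 1 →
      ∃ K : Set (EuclideanSpace ℝ (Fin n)), IsCompact K ∧ ∀ e ∈ W, ‖e‖ = 1 →
          ∃ a : EuclideanSpace ℝ (Fin n), seg a e 1 ⊆ K ∧
            (inner ℝ e ν ≠ 0 → ENNReal.ofReal ρ ≤ dimH (exceptional K (seg a e 1) ν s))) := by
  unfold exceptional seg
  have hcnt := Pool.Agent.H951.KS.cnt_cond hn hc1 hc
  have hcntq := Pool.Agent.H951.FX.cntq_cond hn hc1 hc
  obtain ⟨d, rfl⟩ : ∃ d, n = d + 1 := ⟨n - 1, by omega⟩
  have hd : 1 ≤ d := by omega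
  have e1 : (((d + 1 : ℕ) : ℝ) - 1) = d := by push_cast; ring
  have e3 : (((d + 1 : ℕ) : ℝ) - 2) / 2 = ((d : ℝ) - 1) / 2 := by push_cast; ring
  rw [e1, e3]
  have e2 : ∀ y z : ℝ, y * z / (d : ℝ) = y * (z / d) := fun y z => mul_div_assoc y z _
  refine ⟨?_, fun K hK β hβ => Pool.Agent.H951.FX.M2Q Pool.Agent.H951.FX.e3q d hd c
    (by linarith) hcntq β hβ K hK, fun m W hm hW ν hνW hν s ρ h1 h2 h3 =>
    by
      simp only [one_smul]
      exact Pool.Agent.H951.KS.sharpW2 (d + 1) m hm W hW ν hνW hν s ρ h1 h2 h3⟩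
  intro K hK
  have h1 : ∀ᵐ e : EuclideanSpace ℝ (Fin (d + 1)), ∀ m : ℕ,
      ∀ (a : EuclideanSpace ℝ (Fin (d + 1))) (r : ℝ),
      segment ℝ a (a + r • e) ⊆ K → ∀ ν : EuclideanSpace ℝ (Fin (d + 1)), inner ℝ e ν ≠ 0 →
      ∀ s : ℝ,
      dimH {x ∈ segment ℝ a (a + r • e) |
        dimH (K ∩ {y | inner ℝ y ν = inner ℝ x ν}) < ENNReal.ofReal s} ≤
          ENNReal.ofReal ((c + 1 / ((m : ℝ) + 1)) * s / d) ∧
      dimH {x ∈ segment ℝ a (a + r • e) |
        dimH (K ∩ {y | inner ℝ y ν = inner ℝ x ν}) < ENNReal.ofReal s} ≤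
          ENNReal.ofReal (s - ((d : ℝ) - 1) / 2) ∧
      (2 * s ≤ d → dimH {x ∈ segment ℝ a (a + r • e) |
        dimH (K ∩ {y | inner ℝ y ν = inner ℝ x ν}) < ENNReal.ofReal s} = 0) := by
    rw [ae_all_iff]
    intro m
    have hm : (0 : ℝ) < 1 / ((m : ℝ) + 1) := by positivity
    exact Pool.Agent.H951.KS.N2 d hd (c + 1 / ((m : ℝ) + 1)) (by linarith)
      (hcnt _ (by linarith)) K hK
  filter_upwards [h1] with e he a r hseg ν hν s
  refine ⟨?_, (he 0 a r hseg ν hν s).2.2⟩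
  rw [ENNReal.ofReal_min, e2]
  refine le_min ?_ (he 0 a r hseg ν hν s).2.1
  exact Pool.Agent.H951.KS.limit_nat fun m => by
    rw [← e2]
    exact (he m a r hseg ν hν s).1

end Pool.Agent.Results.MP_b1773a_an.ExceptionalSlices
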