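import Pool.Agent.H951.FH.Asm3
import Pool.Agent.H951.FX.AsmR
import Pool.Agent.H951.FX.CondQ
import Pool.Agent.H951.FX.AsmP

/-!
# MP_b1773a_an: sets that meet a line in every direction in a set of large dimension

Let `n ≥ 3` and let `c ≥ 1` be such that `c ≥ 2(n-1)/n`, or `n ≥ 10` and `c^3-4c+2 ≥ 0`, or
`n ≥ 15` and `(n-1)(c^3-4c+2) + c(3c-1-c^2) ≥ 0`.

Let `N` be any set of unit vectors of `ℝ^n` of Hausdorff dimension at least `β > 0`, let `α > 0` and
let `K ⊆ ℝ^n` be any set such that for every `e ∈ N` some line parallel to `e` meets `K` in a set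
of Hausdorff dimension at least `α`.  Then the Hausdorff dimension of `K` is at least

`max (α + β/2, min (2α, 1+β) + (β-1)/2, α + ((n-1)α - (n-1-β))/c)`.

(`min (2α, 1+β) = 2α` if `β ≥ 1`.)  The case `α = 1` says that a set that contains a segment
parallel to `e` for every `e` in a set of directions of dimension `β ≥ 1` has dimension at least
`(β + 3)/2` and `1 + β/c`; with `β = n - 1` the first is Wolff's bound `(n + 2)/2`.
-/

set_option autoImplicit false

open MeasureTheory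

namespace Pool.Agent.Results.MP_b1773a_an.FurstenbergKakeya

theorem result (n : ℕ) (hn : 3 ≤ n) (c : ℝ) (hc1 : 1 ≤ c)
    (hc : 2 * ((n : ℝ) - 1) / n ≤ c ∨ (10 ≤ n ∧ 0 ≤ c ^ 3 - 4 * c + 2) ∨
      (15 ≤ n ∧ 0 ≤ ((n : ℝ) - 1) * (c ^ 3 - 4 * c + 2) + c * (3 * c - 1 - c ^ 2)))
    (K N : Set (EuclideanSpace ℝ (Fin n))) (α β : ℝ) (hα : 0 < α) (hβ : 0 < β)
    (hN : ∀ e ∈ N, ‖e‖ = 1) (hdim : ENNReal.ofReal β ≤ dimH N)
    (hK : ∀ e ∈ N, ∃ a : EuclideanSpace ℝ (Fin n),
      ENNReal.ofReal α ≤ dimH (K ∩ {x | ∃ r : ℝ, x = a + r • e})) :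
    ENNReal.ofReal (max (α + β / 2) (max (min (2 * α) (1 + β) + (β - 1) / 2)
      (α + (((n : ℝ) - 1) * α - ((n : ℝ) - 1 - β)) / c))) ≤ dimH K := by
  have hcnt := Pool.Agent.H951.FX.cntq_cond hn hc1 hc
  have h1 : ENNReal.ofReal (min (2 * α) (1 + β) + (β - 1) / 2) ≤ dimH K := by
    rcases le_total (2 * α) (1 + β) with h | h
    · rw [min_eq_left h]
      exact Pool.Agent.H951.FH.fdB n K N α β hα hβ h hN hdim hK
    · rw [min_eq_right h]
      have h2 := Pool.Agent.H951.FH.fdB n K N ((1 + β) / 2) β (by linarith) hβ (by linarith) hN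
        hdim fun e he => by
          obtain ⟨a, ha⟩ := hK e he
          exact ⟨a, (ENNReal.ofReal_le_ofReal (by linarith)).trans ha⟩
      have e1 : 2 * ((1 + β) / 2) = 1 + β := by ring
      rwa [e1] at h2
  obtain ⟨d, rfl⟩ : ∃ d, n = d + 1 := ⟨n - 1, by omega⟩
  have e1 : (((d + 1 : ℕ) : ℝ) - 1) = d := by push_cast; ring
  rw [e1, ENNReal.ofReal_max, ENNReal.ofReal_max]
  exact max_le (Pool.Agent.H951.FX.fdP d (by omega) K N α β hα hβ hN hdim hK)
    (max_le h1 (Pool.Agent.H951.FX.fdR d (by omega) c (by linarith) hcnt K N α β hα hβ hN hdim hK))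

end Pool.Agent.Results.MP_b1773a_an.FurstenbergKakeya
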