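import Pool.Agent.H224.MPS.Main
import Pool.Graph.R_seed8.Results.MP_b1773a_an.HybridKakeya

/-!
# MP_b1773a_an: Kakeya sets with many parallel segments

`K ⊆ ℝ^n` is compact and `0 ≤ j ≤ n - 2`. For a vector `x` let `Positions K x` be the set of the
points `p` of the hyperplane orthogonal to `x` such that the line `p + ℝ x` contains a
nondegenerate segment of `K`. For the vectors `x` of a set which is not a Lebesgue null set we
assume that

* `Positions K x` has Hausdorff dimension larger than `j`, or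
* `K` contains a nondegenerate `(j+1)`-dimensional parallelepiped with an edge parallel to `x`.

Then `dim K ≥ j + κ (n - j)`, where `κ d` is the smallest Hausdorff dimension of the Kakeya sets of
`ℝ^d`. So `dim K = n` if the Kakeya conjecture holds in `ℝ^(n-j)`, for instance if `n - j = 2`
(or, by Wang and Zahl, if `n - j = 3`).
-/

set_option autoImplicit false

open MeasureTheory Set
open scoped ENNReal InnerProductSpace

namespace Pool.Agent.Results.MP_b1773a_an.ManyParallelSegments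

/-- Kakeya sets of `ℝ^n`: compact sets with a unit segment in every direction -/
def Kakeya (n : ℕ) (K : Set (EuclideanSpace ℝ (Fin n))) : Prop :=
  IsCompact K ∧ ∀ e : EuclideanSpace ℝ (Fin n), ‖e‖ = 1 → ∃ a, ∀ t ∈ Icc (0 : ℝ) 1, a + t • e ∈ K

/-- The infimum of the Hausdorff dimensions of the Kakeya sets of `ℝ^n` -/
noncomputable def minDim (n : ℕ) : ℝ≥0∞ :=
  ⨅ (K : Set (EuclideanSpace ℝ (Fin n))) (_ : Kakeya n K), dimH K

/-- The lines parallel to `x` which contain a nondegenerate segment of `K`, given by their points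
`p` orthogonal to `x` -/
def Positions {n : ℕ} (K : Set (EuclideanSpace ℝ (Fin n))) (x : EuclideanSpace ℝ (Fin n)) :
    Set (EuclideanSpace ℝ (Fin n)) :=
  {p | ⟪p, x⟫_ℝ = 0 ∧ ∃ s t : ℝ, s < t ∧ ∀ r ∈ Icc s t, p + r • x ∈ K}

/-- `K` contains a nondegenerate `(j+1)`-dimensional parallelepiped with edges `x, w 0, …` -/
def ContainsPlate {n : ℕ} (j : ℕ) (K : Set (EuclideanSpace ℝ (Fin n)))
    (x : EuclideanSpace ℝ (Fin n)) : Prop :=
  ∃ (b : EuclideanSpace ℝ (Fin n)) (w : Fin j → EuclideanSpace ℝ (Fin n)),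
    LinearIndependent ℝ (Fin.cons x w : Fin (j + 1) → EuclideanSpace ℝ (Fin n)) ∧
    ∀ s ∈ Icc (0 : Fin j → ℝ) 1, ∀ t ∈ Icc (0 : ℝ) 1, b + ∑ i, s i • w i + t • x ∈ K

theorem one_le_minDim (m : ℕ) : 1 ≤ minDim (m + 1) := by
  refine le_iInf₂ fun K hK => ?_
  obtain ⟨a, ha⟩ := hK.2 (EuclideanSpace.single 0 1) (by simp)
  have hiso : Isometry fun t : ℝ => a + t • (EuclideanSpace.single 0 1 : EuclideanSpace ℝ (Fin (m + 1))) := by
    refine Isometry.of_dist_eq fun s t => ?_
    rw [dist_add_left, dist_eq_norm, ← sub_smul, norm_smul, Real.dist_eq]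
    simp
  have h1 : dimH ((fun t : ℝ => a + t • (EuclideanSpace.single 0 1 :
      EuclideanSpace ℝ (Fin (m + 1)))) '' Icc (0 : ℝ) 1) = 1 := by
    rw [hiso.dimH_image]
    have h2 : (interior (Icc (0 : ℝ) 1)).Nonempty := by
      rw [interior_Icc]
      exact nonempty_Ioo.2 one_pos
    simpa using Real.dimH_of_nonempty_interior h2
  rw [← h1]
  exact dimH_mono (image_subset_iff.2 fun t ht => ha t ht)

theorem two_le_minDim : 2 ≤ minDim 2 := by
  refine le_iInf₂ fun K hK => ?_
  have h1 := Pool.Agent.Results.MP_b1773a_an.HybridKakeya.result 2 le_rfl 1 le_rfl (by norm_num)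
    univ K (by
      have h2 : {e : Metric.sphere (0 : EuclideanSpace ℝ (Fin 2)) 1 |
          (e : EuclideanSpace ℝ (Fin 2)) ∈ (univ : Set (EuclideanSpace ℝ (Fin 2)))} = univ := by
        ext e
        simp
      rw [h2, Measure.toSphere_apply_univ]
      have h3 : volume (Metric.ball (0 : EuclideanSpace ℝ (Fin 2)) 1) ≠ 0 :=
        (Metric.measure_ball_pos _ _ one_pos).ne'
      refine mul_ne_zero ?_ h3
      simp)
    (fun e _ he => by
      obtain ⟨a, ha⟩ := hK.2 e he
      refine ⟨a, lt_of_lt_of_le ?_ (measure_mono (fun t ht => ha t ht) :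
        volume (Icc (0 : ℝ) 1) ≤ volume {t : ℝ | a + t • e ∈ K})⟩
      simp)
  refine le_trans (le_of_eq ?_) h1
  norm_num

/-- **Main result.** -/
theorem result (n j : ℕ) (hj : j + 2 ≤ n) (K : Set (EuclideanSpace ℝ (Fin n)))
    (hK : IsCompact K)
    (h : volume {x : EuclideanSpace ℝ (Fin n) |
      (j : ℝ≥0∞) < dimH (Positions K x) ∨ ContainsPlate j K x} ≠ 0) :
    (j : ℝ≥0∞) + minDim (n - j) ≤ dimH K ∧
    ((∀ K', Kakeya (n - j) K' → dimH K' = ((n - j : ℕ) : ℝ≥0∞)) → dimH K = n) ∧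
    (n = j + 2 → dimH K = n) := by
  obtain ⟨m, rfl⟩ : ∃ m, n = j + m + 1 := ⟨n - j - 1, by omega⟩
  have hm : 1 ≤ m := by omega
  have hnj : j + m + 1 - j = m + 1 := by omega
  have hup : dimH K ≤ ((j + m + 1 : ℕ) : ℝ≥0∞) := by
    refine (dimH_mono (subset_univ K)).trans (le_of_eq ?_)
    rw [Real.dimH_univ_eq_finrank, finrank_euclideanSpace, Fintype.card_fin]
  have hmain : (j : ℝ≥0∞) + minDim (m + 1) ≤ dimH K :=
    Pool.Agent.H224.MPS.main hm (minDim (m + 1)) (lt_of_lt_of_le one_pos (one_le_minDim m))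
      (Pool.Agent.H224.MPS.slopeBound_kappa m) K hK h
  rw [hnj]
  refine ⟨hmain, fun hconj => le_antisymm hup ?_, fun hn => le_antisymm hup ?_⟩
  · refine le_trans ?_ hmain
    have h1 : ((m + 1 : ℕ) : ℝ≥0∞) ≤ minDim (m + 1) := le_iInf₂ fun K' hK' => (hconj K' hK').ge
    calc ((j + m + 1 : ℕ) : ℝ≥0∞) = (j : ℝ≥0∞) + ((m + 1 : ℕ) : ℝ≥0∞) := by push_cast; ring
      _ ≤ _ := by gcongr
  · have hm1 : m = 1 := by omega
    subst hm1
    refine le_trans ?_ hmain
    calc ((j + 1 + 1 : ℕ) : ℝ≥0∞) = (j : ℝ≥0∞) + 2 := by push_cast; ring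
      _ ≤ _ := by gcongr; exact two_le_minDim

end Pool.Agent.Results.MP_b1773a_an.ManyParallelSegments
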