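import Pool.Agent.H565.MK.HT3

/-!
# MP_b1773a_an: planiness of Kakeya sets of small Hausdorff dimension, at almost every point

`K ⊆ ℝ^n` is any set, `U` a set of unit vectors (the directions), and the segment of the direction
`e ∈ U` is `{a e + t e : |t| ≤ 1/2}`, where the positions `a e` are arbitrary.

Let `2 ≤ k ≤ n` and `0 ≤ β`. The bush of the point `x` at the scale `δ` consists of the directions
`e ∈ U` whose segments pass within `δ` of `x`. It is spread at `x`, `SpreadAt U a k β x`, if the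
bushes are at most `β`-dimensional along the linear subspaces `V` of dimension less than `k`: for all
`δ ≤ r ≤ ρ`, the directions of the bush in a ball of radius `ρ` and within `r` of `V` can be covered
by `C δ ^ (-η) (ρ / r) ^ β` balls of radius `r`, for every `η > 0`, where `C` may depend on `x` and
`η`.

Theorem. If `dim_H K < min k (n - β)`, then for almost all `e ∈ U` the bush is spread at almost no
point of `K` on the segment of `e`.

So, if `K` contains, for a set of directions of positive outer measure, parts of positive length of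
unit segments at whose points the bushes are spread, then `dim_H K ≥ min k (n - β)`. For `k = n` and
`β = 0` this says that the bushes of a Kakeya set of dimension less than `n` concentrate along
hyperplanes at almost all points of almost all the segments.
-/

set_option autoImplicit false

open MeasureTheory

namespace Pool.Agent.Results.MP_b1773a_an.Planiness

/-- At the point `x`, the directions of the segments (with centres `a e` and directions `e ∈ U`)
that pass near `x` are at most `β`-dimensional along the subspaces of dimension less than `k`. -/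
def SpreadAt {n : ℕ} (U : Set (EuclideanSpace ℝ (Fin n)))
    (a : EuclideanSpace ℝ (Fin n) → EuclideanSpace ℝ (Fin n)) (k : ℕ) (β : ℝ)
    (x : EuclideanSpace ℝ (Fin n)) : Prop :=
  ∀ η : ℝ, 0 < η → ∃ C : ℝ, ∀ δ : ℝ, 0 < δ → δ < 1 →
    ∀ (y : EuclideanSpace ℝ (Fin n)) (V : Submodule ℝ (EuclideanSpace ℝ (Fin n))),
    Module.finrank ℝ V < k → ∀ r ρ : ℝ, δ ≤ r → r ≤ ρ →
    ∃ Z : Finset (EuclideanSpace ℝ (Fin n)), (Z.card : ℝ) ≤ C * δ ^ (-η) * (ρ / r) ^ β ∧
      ∀ e ∈ U, (∃ t : ℝ, |t| ≤ 1 / 2 ∧ ‖x - (a e + t • e)‖ ≤ δ) → ‖e - y‖ ≤ ρ →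
        Metric.infDist e V ≤ r → ∃ z ∈ Z, ‖e - z‖ ≤ r

theorem SpreadAt.mono {n : ℕ} {U U' : Set (EuclideanSpace ℝ (Fin n))} (h : U' ⊆ U)
    {a : EuclideanSpace ℝ (Fin n) → EuclideanSpace ℝ (Fin n)} {k : ℕ} {β : ℝ}
    {x : EuclideanSpace ℝ (Fin n)} (hx : SpreadAt U a k β x) : SpreadAt U' a k β x := by
  intro η hη
  obtain ⟨C, hC⟩ := hx η hη
  refine ⟨C, fun δ hδ hδ1 y V hV r ρ hr hrρ => ?_⟩
  obtain ⟨Z, hZ, hZ2⟩ := hC δ hδ hδ1 y V hV r ρ hr hrρ
  exact ⟨Z, hZ, fun e he => hZ2 e (h he)⟩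

theorem result (n k : ℕ) (hk : 2 ≤ k) (hkn : k ≤ n) (β : ℝ) (hβ : 0 ≤ β)
    (U K : Set (EuclideanSpace ℝ (Fin n)))
    (a : EuclideanSpace ℝ (Fin n) → EuclideanSpace ℝ (Fin n))
    (hU : ∀ e ∈ U, ‖e‖ = 1)
    (hK : dimH K < ENNReal.ofReal (min (k : ℝ) (n - β))) :
    (volume : Measure (EuclideanSpace ℝ (Fin n))).toSphere
      {e : Metric.sphere (0 : EuclideanSpace ℝ (Fin n)) 1 | (e : EuclideanSpace ℝ (Fin n)) ∈ U ∧
        0 < volume {t : ℝ | |t| ≤ 1 / 2 ∧ a e + t • (e : EuclideanSpace ℝ (Fin n)) ∈ K ∧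
          SpreadAt U a k β (a e + t • (e : EuclideanSpace ℝ (Fin n)))}} = 0 := by
  by_contra hcon
  refine absurd hK (not_lt.2 ?_)
  refine Pool.Agent.H565.MK.haus_pointwise hk hkn β hβ {e | e ∈ U ∧
        0 < volume {t : ℝ | |t| ≤ 1 / 2 ∧ a e + t • (e : EuclideanSpace ℝ (Fin n)) ∈ K ∧
          SpreadAt U a k β (a e + t • (e : EuclideanSpace ℝ (Fin n)))}} K a (fun e he => hU e he.1)
    hcon (fun e he => he.2.trans_le (measure_mono ?_))
  rintro t ⟨h1, h2, h3⟩
  exact ⟨h1, h2, SpreadAt.mono (fun e he => he.1) h3⟩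

end Pool.Agent.Results.MP_b1773a_an.Planiness
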